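import Pool.Agent.Lib.MP_b9b22b_co.Few.H38.Cyc
import Pool.Agent.Lib.MP_b9b22b_co.Few.H72.Mask

/-! From patterns to graphs with few nonpositive eigenvalues. -/

set_option autoImplicit false

namespace Pool.Agent.Lib.MP_b9b22b_co.Few.H38

open Finset Module
open Pool.Agent.Lib.MP_b9b22b_co.Few.H91 (Pattern)

section

variable {V J : Type} [Fintype V] [DecidableEq V] [Fintype J] {e p s m : ℕ}

/-- the value of the pattern with its top term -/
theorem full_val (P : Pt V J e p) (S : Finset V) :
    ((if S = univ then (1 : ℤ) else 0) + ∑ j, if P.T j ⊆ S then P.c j else 0) = 0 ∨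
    ((if S = univ then (1 : ℤ) else 0) + ∑ j, if P.T j ⊆ S then P.c j else 0) = 1 := by
  by_cases h : S = univ
  · left
    subst h
    simp only [subset_univ, if_true, P.top]
    norm_num
  · rw [if_neg h, zero_add]
    exact P.val S h

/-- conversion -/
noncomputable def toPattern (P : Pt V J e p) (ε : V ≃ Fin s) (κ : Option J ≃ Fin m) :
    Pattern s m where
  T k := (κ.symm k).elim univ fun j => (P.T j).map ε.toEmbedding
  c k := (κ.symm k).elim 1 fun j => P.c j
  zero_one S := by
    have h1 : (∑ k : Fin m, if (κ.symm k).elim univ (fun j => (P.T j).map ε.toEmbedding) ⊆ S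
        then (κ.symm k).elim 1 (fun j => P.c j) else 0) =
        (if S.map ε.symm.toEmbedding = univ then (1 : ℤ) else 0) +
          ∑ j, if P.T j ⊆ S.map ε.symm.toEmbedding then P.c j else 0 := by
      rw [Equiv.sum_comp κ.symm fun o : Option J =>
        if o.elim univ (fun j => (P.T j).map ε.toEmbedding) ⊆ S then o.elim 1 (fun j => P.c j)
        else 0, Fintype.sum_option]
      congr 1
      · simp only [Option.elim_none]
        have h2 : (univ ⊆ S) ↔ S.map ε.symm.toEmbedding = univ := by
          rw [univ_subset_iff]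
          constructor
          · rintro rfl
            simp
          · intro h
            rw [eq_univ_iff_forall] at h ⊢
            intro x
            have := h (ε.symm x)
            rw [mem_map_equiv] at this
            simpa using this
        by_cases h : univ ⊆ S
        · exact (if_pos h).trans (if_pos (h2.1 h)).symm
        · exact (if_neg h).trans (if_neg (fun h' => h (h2.2 h'))).symm
      · refine sum_congr rfl fun j _ => ?_
        simp only [Option.elim_some]
        have h2 : (P.T j).map ε.toEmbedding ⊆ S ↔ P.T j ⊆ S.map ε.symm.toEmbedding := by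
          constructor
          · intro h x hx
            rw [mem_map_equiv]
            exact h (by simpa using hx)
          · intro h x hx
            rw [mem_map_equiv] at hx
            have := h hx
            rw [mem_map_equiv] at this
            simpa using this
        by_cases h : (P.T j).map ε.toEmbedding ⊆ S
        · exact (if_pos h).trans (if_pos (h2.1 h)).symm
        · exact (if_neg h).trans (if_neg (fun h' => h (h2.2 h'))).symm
    rw [h1]
    exact full_val P _
  top_zero := by
    have h1 : (∑ k : Fin m, if (κ.symm k).elim univ (fun j => (P.T j).map ε.toEmbedding) ⊆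
        (univ : Finset (Fin s)) then (κ.symm k).elim 1 (fun j => P.c j) else 0) =
        1 + ∑ j, P.c j := by
      simp only [subset_univ, if_true]
      rw [Equiv.sum_comp κ.symm fun o : Option J => o.elim 1 (fun j => P.c j),
        Fintype.sum_option]
      rfl
    rw [h1, P.top]
    norm_num
  top := κ none
  T_top := by simp
  c_top := by simp
  bot := by
    have h : ∃ j, P.c j < 0 := by
      by_contra h
      push Not at h
      have h1 := sum_nonneg fun j (_ : j ∈ univ) => h j
      rw [P.top] at h1
      norm_num at h1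
    exact κ (some h.choose)
  c_bot := by
    have h : ∃ j, P.c j < 0 := by
      by_contra h
      push Not at h
      have h1 := sum_nonneg fun j (_ : j ∈ univ) => h j
      rw [P.top] at h1
      norm_num at h1
    simp only [Equiv.symm_apply_apply, Option.elim_some]
    exact h.choose_spec

theorem cost_le (P : Pt V J e p) (ε : V ≃ Fin s) (κ : Option J ≃ Fin m) {q : ℕ} (hq : 1 ≤ q) :
    (toPattern P ε κ).cost q ≤ m * q ^ e := by
  unfold Pattern.cost
  have h1 : ∀ k ∈ (univ : Finset (Fin m)),
      (if (toPattern P ε κ).c k < 0 then q ^ ((toPattern P ε κ).T k).card else 0) ≤ q ^ e := by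
    intro k _
    split_ifs with hk
    · refine Nat.pow_le_pow_right hq ?_
      simp only [toPattern] at hk ⊢
      rcases h : κ.symm k with _ | j
      · rw [h] at hk
        simp at hk
      · rw [h] at hk
        simp only [Option.elim_some] at hk ⊢
        rw [card_map]
        by_contra h2
        push Not at h2
        exact absurd (P.pos j h2) (not_le.2 hk)
    · exact Nat.zero_le _
  refine (sum_le_card_nsmul _ _ _ h1).trans ?_
  rw [card_univ, Fintype.card_fin, smul_eq_mul]

end

/-- **Patterns give graphs.** -/
theorem HasPt.range {s e p : ℕ} (h : HasPt s e p) (hs : 0 < s) :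
    ∃ C : ℝ, 0 < C ∧ ∀ n i : ℕ, 1 ≤ i → i ≤ n →
      (C * (n : ℝ) ^ ((e : ℝ) / s) ≤ (n : ℝ) - i → ∃ x ∈ eigSet i n, 1 ≤ x) ∧
      (C * (n : ℝ) ^ ((e : ℝ) / s) + 1 ≤ (i : ℝ) → ∃ x ∈ eigSet i n, x ≤ -2) := by
  obtain ⟨V, J, iV, iD, iJ, hV, ⟨P⟩⟩ := h
  classical
  let ε : V ≃ Fin s := Fintype.equivFinOfCardEq hV
  let m := Fintype.card (Option J)
  let κ : Option J ≃ Fin m := Fintype.equivFin _
  have hm : 0 < m := Fintype.card_pos
  refine ⟨((m * 2 ^ e : ℕ) : ℝ), by positivity, fun n i hi hin => ?_⟩
  obtain ⟨q, hq, h1, h2⟩ := H72.exists_q hs m e (hi.trans hin)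
  constructor
  · intro hc
    have h3 : m * q ^ e ≤ n - i := by
      have h4 : ((m * q ^ e : ℕ) : ℝ) ≤ ((n - i : ℕ) : ℝ) := by
        rw [Nat.cast_sub hin]
        exact h2.trans hc
      exact_mod_cast h4
    obtain ⟨G, hG, -⟩ := (toPattern P ε κ).lam_ge h1 ((cost_le P ε κ hq).trans h3) (by omega)
    rw [show n - (n - i) = i by omega] at hG
    exact ⟨_, ⟨G, rfl⟩, hG⟩
  · intro hc
    have h3 : m * q ^ e ≤ i - 1 := by
      have h4 : ((m * q ^ e : ℕ) : ℝ) ≤ ((i - 1 : ℕ) : ℝ) := by
        rw [Nat.cast_sub hi]
        push_cast at h2 hc ⊢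
        linarith
      exact_mod_cast h4
    obtain ⟨G, -, hG⟩ := (toPattern P ε κ).lam_ge h1 ((cost_le P ε κ hq).trans h3) (by omega)
    rw [show i - 1 + 1 = i by omega] at hG
    exact ⟨_, ⟨Gᶜ, rfl⟩, hG⟩

end Pool.Agent.Lib.MP_b9b22b_co.Few.H38
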