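import Pool.Agent.Lib.MP_b9b22b_co.Few.H38.Pat

/-! The three-cycle template: patterns of type `(s, e)` give patterns of type
`(6 s + 3 e, 2 s + 2 e)`. -/

set_option autoImplicit false

namespace Pool.Agent.Lib.MP_b9b22b_co.Few.H38

open Finset

/-- the template -/
def L3 : List (Term 3 3) :=
  [⟨1, ![0, 0, 0], ![true, false, false]⟩, ⟨1, ![1, 1, 0], ![true, false, false]⟩,
   ⟨1, ![1, 2, 0], ![true, false, false]⟩, ⟨-1, ![0, 1, 0], ![true, false, false]⟩,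
   ⟨-1, ![0, 2, 0], ![true, false, false]⟩, ⟨2, ![2, 1, 0], ![true, false, false]⟩,
   ⟨1, ![2, 2, 0], ![true, false, false]⟩,
   ⟨1, ![0, 0, 0], ![false, true, false]⟩, ⟨1, ![0, 1, 1], ![false, true, false]⟩,
   ⟨1, ![0, 1, 2], ![false, true, false]⟩, ⟨-1, ![0, 0, 1], ![false, true, false]⟩,
   ⟨-1, ![0, 0, 2], ![false, true, false]⟩, ⟨2, ![0, 2, 1], ![false, true, false]⟩,
   ⟨1, ![0, 2, 2], ![false, true, false]⟩,
   ⟨1, ![0, 0, 0], ![false, false, true]⟩, ⟨1, ![1, 0, 1], ![false, false, true]⟩,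
   ⟨1, ![2, 0, 1], ![false, false, true]⟩, ⟨-1, ![1, 0, 0], ![false, false, true]⟩,
   ⟨-1, ![2, 0, 0], ![false, false, true]⟩, ⟨2, ![1, 0, 2], ![false, false, true]⟩,
   ⟨1, ![2, 0, 2], ![false, false, true]⟩,
   ⟨-1, ![0, 0, 0], ![true, true, false]⟩, ⟨-1, ![0, 0, 0], ![true, false, true]⟩,
   ⟨-1, ![0, 0, 0], ![false, true, true]⟩, ⟨1, ![0, 0, 0], ![true, true, true]⟩,
   ⟨1, ![2, 2, 2], ![false, false, false]⟩]

theorem isTmpl3 : IsTmpl L3 := by
  unfold IsTmpl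
  decide +kernel

theorem neg3 : ∀ t ∈ L3, t.f < 0 → (t.nb + t.nx ≤ 1 ∧ t.na ≤ 1) ∨
    (t.nb + t.nx = 0 ∧ t.na ≤ 2) := by
  decide +kernel

theorem pos3 : ∀ t ∈ L3, 0 < t.f → 1 ≤ t.nb → t.nb + t.nx ≤ 2 ∧ t.na ≤ 1 := by
  decide +kernel

theorem le3 : ∀ t ∈ L3, t.nb + t.nx + t.na ≤ 3 := by
  decide +kernel

/-- **The step of the recursion.** -/
theorem step3 {s e p : ℕ} (h : HasPt s e p) (hps : p ≤ s) :
    HasPt (6 * s + 3 * e) (2 * s + 2 * e) (3 * s + 3 * e) := by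
  refine h.comp L3 isTmpl3 (fun _ => s + e) ?_ ?_ ?_ ?_
  · intro t ht hf
    rw [Term.wt_eq]
    have h1 : t.nb * p ≤ t.nb * s := Nat.mul_le_mul_left _ hps
    rcases neg3 t ht hf with ⟨h2, h3⟩ | ⟨h2, h3⟩
    · nlinarith [Nat.mul_le_mul_right s h2, Nat.mul_le_mul_right (s + e) h3]
    · nlinarith [Nat.mul_le_mul_right s h2.le, Nat.mul_le_mul_right (s + e) h3]
  · intro t ht hf hb
    rw [Term.wt_eq]
    obtain ⟨h2, h3⟩ := pos3 t ht hf (Term.nb_pos hb)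
    obtain ⟨k, hk⟩ := Nat.exists_eq_add_of_le (Term.nb_pos hb)
    have h4 : k + t.nx ≤ 1 := by omega
    have h1 : k * p ≤ k * s := Nat.mul_le_mul_left _ hps
    rw [hk]
    nlinarith [Nat.mul_le_mul_right s h4, Nat.mul_le_mul_right (s + e) h3]
  · intro t ht
    rw [Term.wt_eq]
    have h1 : t.nb * p ≤ t.nb * s := Nat.mul_le_mul_left _ hps
    nlinarith [Nat.mul_le_mul_right (s + e) (le3 t ht), Nat.mul_le_mul_left t.nb (Nat.le_add_right s e),
      Nat.mul_le_mul_left t.nx (Nat.le_add_right s e)]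
  · rw [sum_const, card_univ, Fintype.card_fin, smul_eq_mul]
    ring

/-- the first pattern: the product of the complements of two variables -/
theorem base : HasPt 2 1 1 := by
  refine ⟨Fin 2, Fin 3, inferInstance, inferInstance, inferInstance, Fintype.card_fin 2,
    ⟨⟨![∅, {0}, {1}], ![1, -1, -1], ?_, ?_, ?_, ?_⟩⟩⟩
  · decide +kernel
  · decide +kernel
  · decide +kernel
  · decide +kernel

/-- the parameters of the recursion -/
def par : ℕ → ℕ × ℕ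
  | 0 => (2, 1)
  | k + 1 => (6 * (par k).1 + 3 * (par k).2, 2 * (par k).1 + 2 * (par k).2)

theorem hasPt_par (k : ℕ) : ∃ p, p ≤ (par k).1 ∧ HasPt (par k).1 (par k).2 p := by
  induction k with
  | zero => exact ⟨1, by decide, base⟩
  | succ k ih =>
    obtain ⟨p, hp, h⟩ := ih
    exact ⟨_, by simp only [par]; omega, step3 h hp⟩

end Pool.Agent.Lib.MP_b9b22b_co.Few.H38
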