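import Pool.Agent.Lib.MP_b9b22b_co.Few.H38.Conv

/-! The exponents of the recursion converge to `2 / (2 + √10)`. -/

set_option autoImplicit false

namespace Pool.Agent.Lib.MP_b9b22b_co.Few.H38

open Finset Module

theorem sq10 : Real.sqrt 10 * Real.sqrt 10 = 10 := Real.mul_self_sqrt (by norm_num)

theorem lt10 : 3 < Real.sqrt 10 := by
  rw [Real.lt_sqrt (by norm_num)]
  norm_num

theorem gt10 : Real.sqrt 10 < 4 := by
  rw [Real.sqrt_lt' (by norm_num)]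
  norm_num

theorem par_rel (k : ℕ) : (1 + Real.sqrt 10 / 2) * (par k).2 - (par k).1 =
    (Real.sqrt 10 / 2 - 1) * (4 - Real.sqrt 10) ^ k := by
  induction k with
  | zero =>
    simp only [par]
    push_cast
    ring
  | succ k ih =>
    rw [pow_succ, ← mul_assoc, ← ih]
    simp only [par]
    push_cast
    linear_combination ((par k).2 / 2 : ℝ) * sq10

theorem par_ge (k : ℕ) : k + 2 ≤ (par k).1 := by
  induction k with
  | zero => simp [par]
  | succ k ih =>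
    simp only [par]
    omega

theorem exists_par {θ : ℝ} (hθ : 2 / (2 + Real.sqrt 10) < θ) :
    ∃ k : ℕ, ((par k).2 : ℝ) / (par k).1 < θ := by
  have h0 : 0 < θ - 2 / (2 + Real.sqrt 10) := by linarith
  obtain ⟨k, hk⟩ := exists_nat_gt (1 / (θ - 2 / (2 + Real.sqrt 10)))
  refine ⟨k, ?_⟩
  have h1 := par_rel k
  have h2 := lt10
  have h3 := gt10
  have hs : ((k : ℝ) + 2) ≤ (par k).1 := by exact_mod_cast par_ge k
  have hs0 : (0 : ℝ) < (par k).1 := by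
    have : (0 : ℝ) ≤ k := Nat.cast_nonneg k
    linarith
  have h4 : (Real.sqrt 10 / 2 - 1) * (4 - Real.sqrt 10) ^ k ≤ 1 := by
    have h5 : (4 - Real.sqrt 10) ^ k ≤ 1 := pow_le_one₀ (by linarith) (by linarith)
    have h6 : 0 ≤ (4 - Real.sqrt 10) ^ k := pow_nonneg (by linarith) k
    nlinarith
  have h5 : ((par k).2 : ℝ) * (2 + Real.sqrt 10) ≤ 2 * ((par k).1 + 1) := by
    nlinarith
  have h6 : 1 < (par k).1 * (θ - 2 / (2 + Real.sqrt 10)) := by
    have h7 : 1 < (k : ℝ) * (θ - 2 / (2 + Real.sqrt 10)) := by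
      rwa [div_lt_iff₀ h0] at hk
    nlinarith
  have h8 : (0 : ℝ) < 2 + Real.sqrt 10 := by linarith
  rw [div_lt_iff₀ hs0]
  have h9 : ((par k).2 : ℝ) ≤ 2 / (2 + Real.sqrt 10) * ((par k).1 + 1) := by
    rw [div_mul_eq_mul_div, le_div_iff₀ h8]
    exact h5
  have h10 : 2 / (2 + Real.sqrt 10) < 1 := by
    rw [div_lt_one h8]
    linarith
  nlinarith

/-- **The range `n ^ θ` for every `θ > 2 / (2 + √10)`.** -/
theorem range_theta {θ : ℝ} (hθ : 2 / (2 + Real.sqrt 10) < θ) :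
    ∃ C : ℝ, 0 < C ∧ ∀ n i : ℕ, 1 ≤ i → i ≤ n →
      (C * (n : ℝ) ^ θ ≤ (n : ℝ) - i → ∃ x ∈ eigSet i n, 1 ≤ x) ∧
      (C * (n : ℝ) ^ θ + 1 ≤ (i : ℝ) → ∃ x ∈ eigSet i n, x ≤ -2) := by
  obtain ⟨k, hk⟩ := exists_par hθ
  obtain ⟨p, -, hp⟩ := hasPt_par k
  obtain ⟨C, hC, h⟩ := hp.range (by have := par_ge k; omega)
  refine ⟨C, hC, fun n i hi hin => ?_⟩
  have hn : (1 : ℝ) ≤ n := by exact_mod_cast hi.trans hin
  have h1 : C * (n : ℝ) ^ (((par k).2 : ℝ) / (par k).1) ≤ C * (n : ℝ) ^ θ :=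
    mul_le_mul_of_nonneg_left (Real.rpow_le_rpow_of_exponent_le hn hk.le) hC.le
  exact ⟨fun h2 => (h n i hi hin).1 (h1.trans h2), fun h2 => (h n i hi hin).2 (by linarith)⟩

end Pool.Agent.Lib.MP_b9b22b_co.Few.H38
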