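import Mathlib

/-!
Patterns and the composition of patterns with a template.  A pattern is a family of weighted sets
`T j` of coordinates with `∑ j, [T j ⊆ S] c j ∈ {0, 1}` for all proper subsets `S` and `= -1` for
the full set (so that after adding the full set with weight `1` the value there is `0`).
-/

set_option autoImplicit false

namespace Pool.Agent.Lib.MP_b9b22b_co.Few.H38

open Finset

/-- A pattern on `V` with terms `J`; all terms with negative weight have at most `e` elements, all
terms have at most `p` elements. -/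
structure Pt (V J : Type) [Fintype V] [DecidableEq V] [Fintype J] (e p : ℕ) where
  T : J → Finset V
  c : J → ℤ
  val : ∀ S : Finset V, S ≠ univ → (∑ j, if T j ⊆ S then c j else 0) = 0 ∨
    (∑ j, if T j ⊆ S then c j else 0) = 1
  top : ∑ j, c j = -1
  pos : ∀ j, e < (T j).card → 0 ≤ c j
  le : ∀ j, (T j).card ≤ p

/-- The value of a block with the state `σ` in a term with the mark `b`: the marks are `0` (the
block does not occur), `1` (the pattern without its top term), `2` (the top term); the states are
`0`, `1` (value of the pattern) and `2` (full set). -/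
def vb (b σ : Fin 3) : ℤ :=
  if b = 0 then 1 else if b = 1 then (if σ = 0 then 0 else if σ = 1 then 1 else -1)
  else (if σ = 2 then 1 else 0)

/-- one term of a template -/
structure Term (m l : ℕ) where
  f : ℤ
  b : Fin m → Fin 3
  a : Fin l → Bool

variable {m l : ℕ}

/-- the value of a term -/
def Term.val (t : Term m l) (σ : Fin m → Fin 3) (τ : Fin l → Bool) : ℤ :=
  t.f * (∏ i, vb (t.b i) (σ i)) * (if ∀ a, t.a a = true → τ a = true then 1 else 0)

/-- the value of a template -/
def tval (L : List (Term m l)) (σ : Fin m → Fin 3) (τ : Fin l → Bool) : ℤ :=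
  (L.map fun t => t.val σ τ).sum

/-- the Boolean conditions on a template -/
def IsTmpl (L : List (Term m l)) : Prop :=
  ∀ (σ : Fin m → Fin 3) (τ : Fin l → Bool),
    if (∀ i, σ i = 2) ∧ (∀ a, τ a = true) then tval L σ τ = -1
    else tval L σ τ = 0 ∨ tval L σ τ = 1

section

variable {V J : Type} [Fintype V] [DecidableEq V] [Fintype J] {e p : ℕ} {w : Fin l → ℕ}

/-- the coordinates of the composition -/
abbrev VV (m l : ℕ) (V : Type) (w : Fin l → ℕ) : Type := (Fin m × V) ⊕ (Σ a : Fin l, Fin (w a))

/-- the part of a set in one block -/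
def prt (S : Finset (VV m l V w)) (i : Fin m) : Finset V := univ.filter fun x => Sum.inl (i, x) ∈ S

/-- the plain variables which are contained in a set -/
def pl (S : Finset (VV m l V w)) (a : Fin l) : Bool := decide (∀ y, Sum.inr ⟨a, y⟩ ∈ S)

/-- the state of a block -/
def st (P : Pt V J e p) (S : Finset V) : Fin 3 :=
  if S = univ then 2 else if (∑ j, if P.T j ⊆ S then P.c j else 0) = 0 then 0 else 1

/-- the elements of the set of a term -/
def inT (P : Pt V J e p) (t : Term m l) (φ : {i : Fin m // t.b i = 1} → J) : VV m l V w → Prop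
  | Sum.inl v => if h : t.b v.1 = 1 then v.2 ∈ P.T (φ ⟨v.1, h⟩) else t.b v.1 = 2
  | Sum.inr y => t.a y.1 = true

open scoped Classical in
/-- the set of a term -/
noncomputable def tset (P : Pt V J e p) (t : Term m l) (φ : {i : Fin m // t.b i = 1} → J) :
    Finset (VV m l V w) :=
  univ.filter fun v => inT P t φ v

theorem mem_tset_inl (P : Pt V J e p) (t : Term m l) (φ : {i : Fin m // t.b i = 1} → J)
    (i : Fin m) (x : V) : (Sum.inl (i, x) : VV m l V w) ∈ tset P t φ ↔
      (if h : t.b i = 1 then x ∈ P.T (φ ⟨i, h⟩) else t.b i = 2) := by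
  simp only [tset, mem_filter, mem_univ, true_and]
  exact Iff.rfl

theorem mem_tset_inr (P : Pt V J e p) (t : Term m l) (φ : {i : Fin m // t.b i = 1} → J)
    (y : Σ a : Fin l, Fin (w a)) : (Sum.inr y : VV m l V w) ∈ tset P t φ ↔ t.a y.1 = true := by
  simp only [tset, mem_filter, mem_univ, true_and]
  exact Iff.rfl

theorem fin3 : ∀ b : Fin 3, b = 0 ∨ b = 1 ∨ b = 2 := by decide

theorem tset_subset (P : Pt V J e p) (t : Term m l) (φ : {i : Fin m // t.b i = 1} → J)
    (S : Finset (VV m l V w)) : tset P t φ ⊆ S ↔
      (∀ i, P.T (φ i) ⊆ prt S i.1) ∧ (∀ i, t.b i = 2 → prt S i = univ) ∧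
        ∀ a, t.a a = true → pl S a = true := by
  constructor
  · intro h
    refine ⟨fun i x hx => ?_, fun i hi => ?_, fun a ha => ?_⟩
    · rw [prt, mem_filter]
      refine ⟨mem_univ _, h ?_⟩
      rw [mem_tset_inl, dif_pos i.2]
      exact hx
    · rw [eq_univ_iff_forall]
      intro x
      rw [prt, mem_filter]
      refine ⟨mem_univ _, h ?_⟩
      rw [mem_tset_inl, dif_neg (by rw [hi]; decide)]
      exact hi
    · rw [pl, decide_eq_true_eq]
      intro y
      apply h
      rw [mem_tset_inr]
      exact ha
  · rintro ⟨h1, h2, h3⟩ v hv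
    rcases v with ⟨i, x⟩ | ⟨a, y⟩
    · rw [mem_tset_inl] at hv
      by_cases h : t.b i = 1
      · rw [dif_pos h] at hv
        have := h1 ⟨i, h⟩ hv
        rw [prt, mem_filter] at this
        exact this.2
      · rw [dif_neg h] at hv
        have : x ∈ prt S i := by
          rw [h2 i hv]
          exact mem_univ x
        rw [prt, mem_filter] at this
        exact this.2
    · rw [mem_tset_inr] at hv
      have := h3 a hv
      rw [pl, decide_eq_true_eq] at this
      exact this y

/-- the value of the pattern at a state -/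
theorem vb_one (P : Pt V J e p) (S : Finset V) :
    (∑ j, if P.T j ⊆ S then P.c j else 0) = vb 1 (st P S) := by
  unfold st vb
  by_cases h : S = univ
  · subst h
    simp only [subset_univ, if_true]
    rw [P.top]
    decide
  · rw [if_neg h]
    rcases P.val S h with h0 | h0
    · rw [h0, if_pos rfl]
      decide
    · rw [h0, if_neg (by decide)]
      decide

theorem vb_two (P : Pt V J e p) (S : Finset V) :
    (if S = univ then (1 : ℤ) else 0) = vb 2 (st P S) := by
  unfold st vb
  by_cases h : S = univ
  · rw [if_pos h, if_pos h]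
    decide
  · rw [if_neg h, if_neg h]
    split_ifs <;> first | rfl | contradiction

/-- the sum over the terms of the composition which belong to one term of the template -/
theorem sum_term (P : Pt V J e p) (t : Term m l) (S : Finset (VV m l V w)) :
    (∑ φ : {i : Fin m // t.b i = 1} → J, if tset P t φ ⊆ S then t.f * ∏ i, P.c (φ i) else 0) =
      t.val (fun i => st P (prt S i)) (pl S) := by
  classical
  unfold Term.val
  have h1 : ∀ φ : {i : Fin m // t.b i = 1} → J,
      (if tset P t φ ⊆ S then t.f * ∏ i, P.c (φ i) else 0) =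
      t.f * (∏ i : {i : Fin m // t.b i = 1},
        (if P.T (φ i) ⊆ prt S i.1 then P.c (φ i) else 0)) *
      ((if ∀ i, t.b i = 2 → prt S i = univ then 1 else 0) *
        (if ∀ a, t.a a = true → pl S a = true then 1 else 0)) := by
    intro φ
    have h2 : ∏ i : {i : Fin m // t.b i = 1},
        (if P.T (φ i) ⊆ prt S i.1 then P.c (φ i) else 0) =
        if ∀ i, P.T (φ i) ⊆ prt S i.1 then ∏ i, P.c (φ i) else 0 := by
      split_ifs with h3
      · exact prod_congr rfl fun i _ => if_pos (h3 i)
      · push Not at h3
        obtain ⟨i, hi⟩ := h3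
        exact prod_eq_zero (mem_univ i) (if_neg hi)
    rw [h2]
    by_cases c1 : ∀ i, P.T (φ i) ⊆ prt S i.1
    · by_cases c2 : ∀ i, t.b i = 2 → prt S i = univ
      · by_cases c3 : ∀ a, t.a a = true → pl S a = true
        · rw [if_pos ((tset_subset P t φ S).2 ⟨c1, c2, c3⟩), if_pos c1, if_pos c2, if_pos c3]
          ring
        · rw [if_neg (fun h => c3 ((tset_subset P t φ S).1 h).2.2), if_neg c3]
          ring
      · rw [if_neg (fun h => c2 ((tset_subset P t φ S).1 h).2.1), if_neg c2]
        ring
    · rw [if_neg (fun h => c1 ((tset_subset P t φ S).1 h).1), if_neg c1]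
      ring
  rw [sum_congr rfl fun φ _ => h1 φ, ← sum_mul, ← mul_sum]
  have h4 : ∑ φ : {i : Fin m // t.b i = 1} → J, ∏ i : {i : Fin m // t.b i = 1},
      (if P.T (φ i) ⊆ prt S i.1 then P.c (φ i) else 0) =
      ∏ i : {i : Fin m // t.b i = 1}, vb 1 (st P (prt S i.1)) := by
    have h5 := prod_univ_sum (fun _ : {i : Fin m // t.b i = 1} => (univ : Finset J))
      fun i j => if P.T j ⊆ prt S i.1 then P.c j else 0
    rw [Fintype.piFinset_univ] at h5
    rw [← h5]
    exact prod_congr rfl fun i _ => vb_one P _
  rw [h4]
  have h6 : ∏ i, vb (t.b i) (st P (prt S i)) =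
      (∏ i : {i : Fin m // t.b i = 1}, vb 1 (st P (prt S i.1))) *
        (if ∀ i, t.b i = 2 → prt S i = univ then 1 else 0) := by
    rw [← Fintype.prod_subtype_mul_prod_subtype (fun i => t.b i = 1)]
    congr 1
    · exact prod_congr rfl fun i _ => by rw [i.2]
    · split_ifs with h7
      · refine prod_eq_one fun i _ => ?_
        have hi := i.2
        rcases fin3 (t.b i.1) with h8 | h8 | h8
        · rw [h8]
          rfl
        · exact absurd h8 hi
        · rw [h8, ← vb_two, if_pos (h7 i.1 h8)]
      · push Not at h7
        obtain ⟨i, hi, hS⟩ := h7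
        refine prod_eq_zero (mem_univ (⟨i, by rw [hi]; decide⟩ : {i : Fin m // ¬ t.b i = 1})) ?_
        simp only
        rw [hi, ← vb_two, if_neg hS]
  rw [h6]
  ring

theorem sum_get {α : Type} (L : List α) (f : α → ℤ) :
    ∑ j : Fin L.length, f (L.get j) = (L.map f).sum := by
  rw [← List.sum_ofFn]
  congr 1
  exact List.ofFn_getElem_eq_map L f

/-- the largest possible number of elements of a term -/
def Term.wt (t : Term m l) (s p : ℕ) (w : Fin l → ℕ) : ℕ :=
  ∑ i, (if t.b i = 1 then p else if t.b i = 2 then s else 0) + ∑ a, if t.a a = true then w a else 0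

theorem card_tset (P : Pt V J e p) (t : Term m l) (φ : {i : Fin m // t.b i = 1} → J) :
    (tset P t φ : Finset (VV m l V w)).card =
      ∑ i, (if h : t.b i = 1 then (P.T (φ ⟨i, h⟩)).card else if t.b i = 2 then Fintype.card V
        else 0) + ∑ a, if t.a a = true then w a else 0 := by
  classical
  have h0 : (tset P t φ : Finset (VV m l V w)).card =
      ∑ v : VV m l V w, if v ∈ (tset P t φ : Finset (VV m l V w)) then 1 else 0 := by
    rw [sum_boole]
    simp
  rw [h0, Fintype.sum_sum_type, Fintype.sum_prod_type, Fintype.sum_sigma]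
  congr 1
  · refine sum_congr rfl fun i _ => ?_
    simp only [mem_tset_inl]
    by_cases h : t.b i = 1
    · simp only [dif_pos h]
      rw [sum_boole]
      simp
    · simp only [dif_neg h]
      split_ifs
      · simp
      · simp
  · refine sum_congr rfl fun a _ => ?_
    simp only [mem_tset_inr]
    split_ifs
    · simp
    · simp

/-- **Composition.** -/
noncomputable def comp (P : Pt V J e p) (L : List (Term m l)) (hL : IsTmpl L)
    (w : Fin l → ℕ) (e' p' : ℕ)
    (hneg : ∀ t ∈ L, t.f < 0 → t.wt (Fintype.card V) p w ≤ e')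
    (hposb : ∀ t ∈ L, 0 < t.f → (∃ i, t.b i = 1) →
      t.wt (Fintype.card V) p w + e ≤ e' + p)
    (hle : ∀ t ∈ L, t.wt (Fintype.card V) p w ≤ p') :
    Pt (VV m l V w) (Σ k : Fin L.length, ({i : Fin m // (L.get k).b i = 1} → J)) e' p' where
  T j := tset P (L.get j.1) j.2
  c j := (L.get j.1).f * ∏ i, P.c (j.2 i)
  val := by
    intro S hS
    rw [Fintype.sum_sigma, sum_congr rfl fun k _ => sum_term P (L.get k) S,
      sum_get L fun t => t.val (fun i => st P (prt S i)) (pl S)]
    have h := hL (fun i => st P (prt S i)) (pl S)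
    rw [if_neg] at h
    · exact h
    · rintro ⟨h1, h2⟩
      apply hS
      rw [eq_univ_iff_forall]
      rintro (⟨i, x⟩ | ⟨a, y⟩)
      · have h3 := h1 i
        have h4 : prt S i = univ := by
          unfold st at h3
          by_contra h4
          rw [if_neg h4] at h3
          split_ifs at h3 <;> contradiction
        have h5 : x ∈ prt S i := by
          rw [h4]
          exact mem_univ x
        rw [prt, mem_filter] at h5
        exact h5.2
      · have h3 := h2 a
        rw [pl, decide_eq_true_eq] at h3
        exact h3 y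
  top := by
    have h1 : ∀ k : Fin L.length, ∑ φ : {i : Fin m // (L.get k).b i = 1} → J,
        (L.get k).f * ∏ i, P.c (φ i) = (L.get k).val (fun _ => 2) (fun _ => true) := by
      intro k
      have h2 := sum_term P (L.get k) (univ : Finset (VV m l V w))
      simp only [subset_univ, if_true] at h2
      rw [h2]
      congr 1
      · funext i
        have h3 : prt (univ : Finset (VV m l V w)) i = univ := by
          rw [eq_univ_iff_forall]
          intro x
          rw [prt, mem_filter]
          exact ⟨mem_univ _, mem_univ _⟩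
        rw [h3]
        unfold st
        rw [if_pos rfl]
      · funext a
        rw [pl, decide_eq_true_eq]
        intro y
        exact mem_univ _
    rw [Fintype.sum_sigma, sum_congr rfl fun k _ => h1 k,
      sum_get L fun t => t.val (fun _ => 2) (fun _ => true)]
    have h := hL (fun _ => 2) (fun _ => true)
    rw [if_pos ⟨fun _ => rfl, fun _ => rfl⟩] at h
    exact h
  pos := by
    rintro ⟨k, φ⟩ hc
    have hk : L.get k ∈ L := L.get_mem k
    by_contra hneg'
    push Not at hneg'
    have hcard : (tset P (L.get k) φ : Finset (VV m l V w)).card ≤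
        (L.get k).wt (Fintype.card V) p w := by
      rw [card_tset, Term.wt]
      refine Nat.add_le_add_right (sum_le_sum fun i _ => ?_) _
      split_ifs
      · exact P.le _
      · exact le_rfl
      · exact le_rfl
    rcases lt_trichotomy (L.get k).f 0 with hf | hf | hf
    · exact absurd (hcard.trans (hneg _ hk hf)) (not_le.2 hc)
    · simp only at hneg'
      rw [hf, zero_mul] at hneg'
      exact lt_irrefl _ hneg'
    · -- a small factor
      have h1 : ∃ i, (P.T (φ i)).card ≤ e := by
        by_contra h
        push Not at h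
        have h2 : 0 ≤ ∏ i, P.c (φ i) := prod_nonneg fun i _ => P.pos _ (h i)
        exact absurd (mul_nonneg hf.le h2) (not_le.2 hneg')
      obtain ⟨i0, hi0⟩ := h1
      have h2 := hposb _ hk hf ⟨i0.1, i0.2⟩
      have h3 : (tset P (L.get k) φ : Finset (VV m l V w)).card + p ≤
          (L.get k).wt (Fintype.card V) p w + e := by
        rw [card_tset, Term.wt]
        have h4 : ∑ i, (if h : (L.get k).b i = 1 then (P.T (φ ⟨i, h⟩)).card else
            if (L.get k).b i = 2 then Fintype.card V else 0) + p ≤
            ∑ i, (if (L.get k).b i = 1 then p else if (L.get k).b i = 2 then Fintype.card V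
              else 0) + e := by
          rw [← add_sum_erase univ _ (mem_univ i0.1), ← add_sum_erase univ
            (fun i => if (L.get k).b i = 1 then p else if (L.get k).b i = 2 then Fintype.card V
              else 0) (mem_univ i0.1), dif_pos i0.2, if_pos i0.2]
          have h5 : ∑ i ∈ univ.erase i0.1, (if h : (L.get k).b i = 1 then
              (P.T (φ ⟨i, h⟩)).card else if (L.get k).b i = 2 then Fintype.card V else 0) ≤
              ∑ i ∈ univ.erase i0.1, (if (L.get k).b i = 1 then p else
                if (L.get k).b i = 2 then Fintype.card V else 0) := by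
            refine sum_le_sum fun i _ => ?_
            split_ifs
            · exact P.le _
            · exact le_rfl
            · exact le_rfl
          have h6 : (P.T (φ ⟨i0.1, i0.2⟩)).card ≤ e := hi0
          omega
        omega
      have h4 : e' < (tset P (L.get k) φ : Finset (VV m l V w)).card := hc
      omega
  le := by
    rintro ⟨k, φ⟩
    refine le_trans ?_ (hle _ (L.get_mem k))
    rw [card_tset, Term.wt]
    refine Nat.add_le_add_right (sum_le_sum fun i _ => ?_) _
    split_ifs
    · exact P.le _
    · exact le_rfl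
    · exact le_rfl

/-- the number of blocks with the mark `1` -/
def Term.nb (t : Term m l) : ℕ := (univ.filter fun i => t.b i = 1).card

/-- the number of blocks with the mark `2` -/
def Term.nx (t : Term m l) : ℕ := (univ.filter fun i => t.b i = 2).card

/-- the number of plain variables -/
def Term.na (t : Term m l) : ℕ := (univ.filter fun a => t.a a = true).card

theorem Term.wt_eq (t : Term m l) (s p w : ℕ) :
    t.wt s p (fun _ => w) = t.nb * p + t.nx * s + t.na * w := by
  have h1 : ∀ i, (if t.b i = 1 then p else if t.b i = 2 then s else 0) =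
      (if t.b i = 1 then p else 0) + if t.b i = 2 then s else 0 := by
    intro i
    rcases fin3 (t.b i) with h | h | h <;> simp [h]
  rw [Term.wt, sum_congr rfl fun i _ => h1 i, sum_add_distrib, ← sum_filter, ← sum_filter,
    ← sum_filter, sum_const, sum_const, sum_const, smul_eq_mul, smul_eq_mul, smul_eq_mul]
  rfl

theorem Term.nb_pos {t : Term m l} (h : ∃ i, t.b i = 1) : 1 ≤ t.nb := by
  obtain ⟨i, hi⟩ := h
  exact card_pos.2 ⟨i, by simp [hi]⟩

/-- There is a pattern on `s` coordinates. -/
def HasPt (s e p : ℕ) : Prop :=
  ∃ (V J : Type) (_ : Fintype V) (_ : DecidableEq V) (_ : Fintype J),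
    Fintype.card V = s ∧ Nonempty (Pt V J e p)

theorem HasPt.comp {s e p : ℕ} (h : HasPt s e p) (L : List (Term m l)) (hL : IsTmpl L)
    (w : Fin l → ℕ) {s' e' p' : ℕ}
    (hneg : ∀ t ∈ L, t.f < 0 → t.wt s p w ≤ e')
    (hposb : ∀ t ∈ L, 0 < t.f → (∃ i, t.b i = 1) → t.wt s p w + e ≤ e' + p)
    (hle : ∀ t ∈ L, t.wt s p w ≤ p') (hs : s' = m * s + ∑ a, w a) : HasPt s' e' p' := by
  obtain ⟨V, J, iV, iD, iJ, hV, ⟨P⟩⟩ := h
  subst hV
  refine ⟨VV m l V w, Σ k : Fin L.length, ({i : Fin m // (L.get k).b i = 1} → J),
    inferInstance, inferInstance, inferInstance, ?_, ⟨H38.comp P L hL w e' p' hneg hposb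
      hle⟩⟩
  rw [hs]
  simp [VV]

end

end Pool.Agent.Lib.MP_b9b22b_co.Few.H38
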