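import Pool.Agent.Lib.MP_b9b22b_co.Spectral
import Pool.Agent.Lib.MP_b9b22b_co.Defs

/-!
From counts of eigenvalues to the sorted eigenvalues of a graph.
-/

set_option autoImplicit false

namespace Pool.Agent.Lib.MP_b9b22b_co.Few.H38

open Finset Pool.Agent.Lib.MP_b9b22b_co

section Trans

variable {V : Type} [Fintype V] [DecidableEq V]

theorem sorted_of_count {C : Matrix V V ℝ} (hC : C.IsHermitian) {K : ℕ}
    (h : K ≤ (univ.filter (fun i => hC.eigenvalues i ≤ 0)).card) (k : Fin (Fintype.card V))
    (hk : Fintype.card V ≤ k + K) : hC.eigenvalues₀ k ≤ 0 := by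
  classical
  by_contra hpos
  push Not at hpos
  set e : V ≃ Fin (Fintype.card V) := (Fintype.equivOfCardEq (Fintype.card_fin _)).symm with he
  have h1 : ∀ i, hC.eigenvalues i = hC.eigenvalues₀ (e i) := fun i => rfl
  have h2 : (univ.filter (fun i => hC.eigenvalues i ≤ 0)).card ≤ (Finset.Ioi k).card := by
    refine Finset.card_le_card_of_injOn (fun i => e i) ?_ (fun x _ y _ hxy => e.injective hxy)
    intro i hi
    have hi' : hC.eigenvalues i ≤ 0 := (mem_filter.mp hi).2
    rw [h1] at hi'
    refine Finset.mem_coe.2 (Finset.mem_Ioi.2 ?_)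
    by_contra hle
    push Not at hle
    have := hC.eigenvalues₀_antitone hle
    linarith
  rw [Fin.card_Ioi] at h2
  have := k.2
  omega

/-- the linear combinations of the columns of `u` -/
def comb {m : ℕ} (u : V → Fin m → ℝ) : (Fin m → ℝ) →ₗ[ℝ] (V → ℝ) where
  toFun a x := ∑ j, a j * u x j
  map_add' a b := by
    funext x; simp [add_mul, sum_add_distrib]
  map_smul' c a := by
    funext x; simp [mul_sum, mul_assoc]

omit [DecidableEq V] in
theorem comb_injective {m : ℕ} (u : V → Fin m → ℝ)
    (hu : ∀ i j, ∑ x, u x i * u x j = if i = j then 1 else 0) :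
    Function.Injective (comb u) := by
  have key : ∀ (a : Fin m → ℝ) (i : Fin m), ∑ x, u x i * comb u a x = a i := by
    intro a i
    simp only [comb, LinearMap.coe_mk, AddHom.coe_mk, mul_sum]
    rw [sum_comm]
    have : ∀ j, ∑ x, u x i * (a j * u x j) = a j * (if i = j then 1 else 0) := by
      intro j
      rw [← hu, mul_sum]
      exact sum_congr rfl fun x _ => by ring
    simp_rw [this]
    simp
  intro a b hab
  funext i
  rw [← key a i, ← key b i, hab]

theorem ge_neg_one {A C : Matrix V V ℝ} (hA : A.IsHermitian) (hC : C.IsHermitian)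
    (hCA : C = -(A + 1)) {K : ℕ}
    (h : K ≤ (univ.filter (fun i => hC.eigenvalues i ≤ 0)).card) (k : Fin (Fintype.card V))
    (hk : k + 1 ≤ K) : -1 ≤ hA.eigenvalues₀ k := by
  have hKn : K ≤ Fintype.card V := h.trans (by
    have := Finset.card_le_univ (univ.filter (fun i => hC.eigenvalues i ≤ 0))
    exact this)
  obtain ⟨u, hu, hform⟩ := exists_bottom hC (m := K) ⟨Fintype.card V - K, by omega⟩
    (by simp only; omega)
  have h0 := sorted_of_count hC h ⟨Fintype.card V - K, by omega⟩ (by simp only; omega)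
  refine le_eigenvalues₀ hA k (m := K) hk (comb u) (comb_injective u hu) ?_
  intro a
  have h1 := hform a
  have h2 : hC.eigenvalues₀ ⟨Fintype.card V - K, by omega⟩ * ∑ x, (∑ j, a j * u x j) ^ 2 ≤ 0 :=
    mul_nonpos_of_nonpos_of_nonneg h0 (sum_nonneg fun x _ => sq_nonneg _)
  have h3 : ∀ f : V → ℝ, ∑ x, ∑ y, C x y * (f x * f y) =
      -(∑ x, ∑ y, A x y * (f x * f y)) - ∑ x, f x ^ 2 := by
    intro f
    rw [← sum_neg_distrib, ← sum_sub_distrib]
    refine sum_congr rfl fun x _ => ?_
    have e1 : ∀ y, C x y * (f x * f y) =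
        -(A x y * (f x * f y)) - (if x = y then f x * f y else 0) := by
      intro y
      rw [hCA]
      by_cases hxy : x = y
      · subst hxy; simp [Matrix.add_apply]; ring
      · simp [Matrix.add_apply, Matrix.one_apply_ne hxy, hxy]
    simp_rw [e1]
    rw [sum_sub_distrib, sum_neg_distrib]
    simp [sq]
  have h4 := h3 (comb u a)
  have h5 : ∀ x, comb u a x = ∑ j, a j * u x j := fun x => rfl
  simp_rw [h5] at h4 ⊢
  linarith

end Trans

open scoped Classical in
theorem lam_bot {n i : ℕ} (hi : 1 ≤ i) (hin : i ≤ n) : lam (⊥ : SimpleGraph (Fin n)) i = 0 := by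
  have hlt : i - 1 < Fintype.card (Fin n) := by rw [Fintype.card_fin]; omega
  unfold lam
  rw [dif_pos hlt]
  apply le_antisymm
  · refine eigenvalues₀_le (adj_isHermitian _) _ (m := n) (by simp) LinearMap.id (fun a b h => h) ?_
    intro a; simp [SimpleGraph.adjMatrix_apply]
  · refine le_eigenvalues₀ (adj_isHermitian _) _ (m := n) (by simp; omega) LinearMap.id (fun a b h => h) ?_
    intro a; simp [SimpleGraph.adjMatrix_apply]

/-- the vectors of sum zero -/
def zs (m : ℕ) : (Fin m → ℝ) →ₗ[ℝ] (Fin (m + 1) → ℝ) where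
  toFun a := Fin.cons (-∑ j, a j) a
  map_add' a b := by
    funext x
    refine Fin.cases ?_ (fun j => ?_) x
    · simp [sum_add_distrib]; ring
    · simp
  map_smul' c a := by
    funext x
    refine Fin.cases ?_ (fun j => ?_) x
    · simp [mul_sum]
    · simp

open scoped Classical in
theorem lam_top {n i : ℕ} (hi : 2 ≤ i) (hin : i ≤ n) : lam (⊤ : SimpleGraph (Fin n)) i ≤ -1 := by
  have hlt : i - 1 < Fintype.card (Fin n) := by rw [Fintype.card_fin]; omega
  obtain ⟨m, rfl⟩ : ∃ m, n = m + 1 := ⟨n - 1, by omega⟩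
  unfold lam
  rw [dif_pos hlt]
  refine eigenvalues₀_le (adj_isHermitian _) _ (m := m) (by simp; omega) (zs m) ?_ ?_
  · intro a b hab
    funext j
    have := congrFun hab j.succ
    simpa [zs] using this
  · intro a
    set f := zs m a with hf
    have hsum : ∑ x, f x = 0 := by
      rw [hf, Fin.sum_univ_succ]; simp [zs]
    have key : ∀ M : Matrix (Fin (m + 1)) (Fin (m + 1)) ℝ, (∀ x y, x = y → M x y = 0) →
        (∀ x y, x ≠ y → M x y = 1) →
        ∑ x, ∑ y, M x y * (f x * f y) ≤ -1 * ∑ x, f x ^ 2 := by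
      intro M hM0 hM1
      have e1 : ∀ x, ∑ y, M x y * (f x * f y) = f x * ∑ y, f y - f x ^ 2 := by
        intro x
        have : ∀ y, M x y * (f x * f y) = f x * f y - (if x = y then f x * f y else 0) := by
          intro y
          by_cases hxy : x = y
          · rw [hM0 x y hxy, if_pos hxy]; ring
          · rw [hM1 x y hxy, if_neg hxy]; ring
        simp_rw [this]
        rw [sum_sub_distrib, ← mul_sum]
        simp [sq]
      simp_rw [e1, hsum]
      rw [sum_sub_distrib]
      simp
    exact key _ (fun x y h => by subst h; simp) (fun x y h => by simp [SimpleGraph.adjMatrix_apply, h])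

open scoped Classical in
theorem lam_last {n : ℕ} (hn : 1 ≤ n) (G : SimpleGraph (Fin n)) : lam G n ≤ 0 := by
  have hlt : n - 1 < Fintype.card (Fin n) := by rw [Fintype.card_fin]; omega
  unfold lam
  rw [dif_pos hlt]
  by_contra hpos
  push Not at hpos
  have h1 : ∀ i, 0 < (adj_isHermitian G).eigenvalues i := by
    intro i
    have h2 : (adj_isHermitian G).eigenvalues i = (adj_isHermitian G).eigenvalues₀
      ((Fintype.equivOfCardEq (Fintype.card_fin _)).symm i) := rfl
    rw [h2]
    refine hpos.trans_le ((adj_isHermitian G).eigenvalues₀_antitone ?_)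
    rw [Fin.le_def]
    have := ((Fintype.equivOfCardEq (Fintype.card_fin _)).symm i :
      Fin (Fintype.card (Fin n))).2
    simp only [Fintype.card_fin] at this ⊢
    omega
  have h3 : 0 < ∑ i, (adj_isHermitian G).eigenvalues i :=
    sum_pos (fun i _ => h1 i) ⟨⟨0, by omega⟩, mem_univ _⟩
  have h4 := (adj_isHermitian G).trace_eq_sum_eigenvalues
  rw [SimpleGraph.trace_adjMatrix] at h4
  simp only [RCLike.ofReal_real_eq_id, id_eq] at h4
  linarith

/-- from the counts to the extremal values -/
theorem values (K n : ℕ)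
    (hcnt0 : ∀ G : SimpleGraph (Fin n),
      K ≤ (univ.filter (fun i => (adj_isHermitian G).eigenvalues i ≤ 0)).card)
    (hcnt1 : ∀ (G : SimpleGraph (Fin n)), open scoped Classical in
      ∀ (hC : (-(G.adjMatrix ℝ + 1)).IsHermitian),
      K ≤ (univ.filter (fun i => hC.eigenvalues i ≤ 0)).card) :
    (∀ j, 1 ≤ j → j ≤ K → IsGreatest (eigSet (n + 1 - j) n) 0) ∧
    (∀ j, 2 ≤ j → j ≤ K → IsLeast (eigSet j n) (-1)) := by
  classical
  have hKn : K ≤ n := by
    have h1 := hcnt0 ⊥
    have h2 := Finset.card_le_univ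
      (univ.filter (fun i => (adj_isHermitian (⊥ : SimpleGraph (Fin n))).eigenvalues i ≤ 0))
    rw [Fintype.card_fin] at h2
    exact h1.trans h2
  constructor
  · intro j hj hjK
    refine ⟨⟨⊥, lam_bot (by omega) (by omega)⟩, ?_⟩
    rintro x ⟨G, rfl⟩
    have hlt : n + 1 - j - 1 < Fintype.card (Fin n) := by rw [Fintype.card_fin]; omega
    unfold lam
    rw [dif_pos hlt]
    exact sorted_of_count (adj_isHermitian G) (hcnt0 G) _ (by simp; omega)
  · intro j hj hjK
    have hlow : ∀ G : SimpleGraph (Fin n), -1 ≤ lam G j := by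
      intro G
      have hlt : j - 1 < Fintype.card (Fin n) := by rw [Fintype.card_fin]; omega
      unfold lam
      rw [dif_pos hlt]
      have hC : (-(G.adjMatrix ℝ + 1)).IsHermitian :=
        ((adj_isHermitian G).add Matrix.isHermitian_one).neg
      exact ge_neg_one (adj_isHermitian G) hC rfl (hcnt1 G hC) _ (by simp; omega)
    refine ⟨⟨⊤, le_antisymm (lam_top hj (by omega)) (hlow ⊤)⟩, ?_⟩
    rintro x ⟨G, rfl⟩
    exact hlow G

end Pool.Agent.Lib.MP_b9b22b_co.Few.H38
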